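import Pool.Agent.Q201.ML.Per

/-!
# Almost periods of the sets of large values, and a bilinear mean value theorem

`D(t) = ∑_{N ≤ n ≤ 2N} b_n n^{it}`, `|b_n| ≤ 1`, and `W ⊂ ℤ ∩ [0, N^A]` is a set with
`|D(t)| > N^σ` for `t ∈ W`. Q1 asks for `|W| ≤ C N^(2-2σ+ε)`. Let `k ≥ 2` and
`η = (k - A) / (2^k - 2)` (positive for `k > A`).

* For ARBITRARY finite sets `X, Y` of integers of `[-N^A, N^A]`
  `∑_{x ∈ X, y ∈ Y} |D(x+y)|² ≤ C N^(2+ε) (|X| + N^(-2η) |X|²)^(1/2) (|Y| + N^(-2η) |Y|²)^(1/2)`.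
* Call `h` an almost period of `W` if `w + h ∈ W` for at least `|W|/K` of the `w ∈ W`, and let `H`
  be a set of almost periods. If `|W|, |H| ≤ N^(2η)` then `(|W| |H|)^(1/2) ≤ C K N^(2-2σ+ε)`, for
  every `σ`. If `N^(2σ) ≥ C K N^(2-2η+ε)` then, without restriction of the sizes,
  `min (|W|, |H|) ≤ C K N^(2-2σ+ε)`: a set `W` for which the bound of Q1 fails has less than
  `C K N^(2-2σ+ε)` almost periods.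
-/

set_option autoImplicit false

namespace Pool.Agent.Results.MP_ecd12e_nt.AlmostPeriods

open Finset

/-- `D(t) = ∑_{N ≤ n ≤ 2N} b_n n^{it}` -/
noncomputable def D (N : ℕ) (b : ℕ → ℂ) (t : ℝ) : ℂ :=
  ∑ n ∈ Icc N (2 * N), b n * Complex.exp (((t * Real.log (n : ℝ) : ℝ) : ℂ) * Complex.I)

/-- `η = (k - A) / (2^k - 2)` -/
noncomputable def eta (A : ℝ) (k : ℕ) : ℝ := ((k : ℝ) - A) / (2 ^ k - 2)

theorem result (A : ℝ) (k : ℕ) (hk : 2 ≤ k) (ε : ℝ) (hε : 0 < ε) :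
    ∃ C : ℝ, 1 ≤ C ∧ ∀ (N : ℕ) (b : ℕ → ℂ), 1 ≤ N → (∀ n, ‖b n‖ ≤ 1) →
      (∀ X Y : Finset ℤ, (∀ x ∈ X, |(x : ℝ)| ≤ (N : ℝ) ^ A) →
        (∀ y ∈ Y, |(y : ℝ)| ≤ (N : ℝ) ^ A) →
        ∑ z ∈ X ×ˢ Y, ‖D N b ((z.1 : ℝ) + z.2)‖ ^ 2 ≤ C * (N : ℝ) ^ (2 + ε) *
          (√(X.card + (N : ℝ) ^ (-(2 * eta A k)) * (X.card : ℝ) ^ 2) *
            √(Y.card + (N : ℝ) ^ (-(2 * eta A k)) * (Y.card : ℝ) ^ 2))) ∧
      (∀ (W H : Finset ℤ) (σ K : ℝ), 1 ≤ K →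
        (∀ t ∈ W, 0 ≤ (t : ℝ) ∧ (t : ℝ) ≤ (N : ℝ) ^ A ∧ (N : ℝ) ^ σ < ‖D N b t‖) →
        (∀ h ∈ H, (W.card : ℝ) ≤ K * ((W.filter fun w => w + h ∈ W).card : ℝ)) →
        ((W.card : ℝ) ≤ (N : ℝ) ^ (2 * eta A k) → (H.card : ℝ) ≤ (N : ℝ) ^ (2 * eta A k) →
          √((W.card : ℝ) * H.card) ≤ C * K * (N : ℝ) ^ (2 - 2 * σ + ε)) ∧
        (C * K * (N : ℝ) ^ (2 - 2 * eta A k + ε) ≤ (N : ℝ) ^ (2 * σ) →
          min (W.card : ℝ) H.card ≤ C * K * (N : ℝ) ^ (2 - 2 * σ + ε))) :=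
  Pool.Agent.Q201.ML.periods A k hk ε hε

end Pool.Agent.Results.MP_ecd12e_nt.AlmostPeriods
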