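import Pool.Agent.Q239.LV.Nik

/-!
# Montgomery's large value conjecture: self-improvement of large value estimates

`LargeValues A σ κ`: for `N ≤ T ≤ N^A` a Dirichlet polynomial `D(t) = ∑_{N ≤ n ≤ 2N} b_n n^{it}`,
`|b_n| ≤ 1`, satisfies `|D(t)| > N^σ` at no more than `C N^κ` integers `t ∈ [0, T]`. Montgomery's
conjecture is this with `κ = 2 - 2σ + ε`, for all `A`, all `σ > 1/2` and all `ε > 0`.

We prove: if `2B < A` and the estimate with the exponent `B + ε` holds at one level `σ₀`, for all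
`ε > 0`, then it holds with the exponent `B - 2 (σ - σ₀) + ε` at all levels `σ ≥ σ₀`. So Montgomery's
conjecture is equivalent to the statement that there are no more than `C N^(1 + ε)` integers
`t ∈ [0, N^A]` with `|D(t)| > N^(1/2 + δ)`, for all `A` and all `δ, ε > 0`.
-/

set_option autoImplicit false

open Finset

namespace Pool.Agent.Results.MP_ecd12e_nt.BoundNSuffices

/-- the Dirichlet polynomial `D(t) = ∑_{N ≤ n ≤ 2N} b_n n^{it}` -/
noncomputable def poly (N : ℕ) (b : ℕ → ℂ) (t : ℤ) : ℂ :=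
  ∑ n ∈ Finset.Icc N (2 * N), b n * Complex.exp ((((t : ℝ) * Real.log (n : ℝ) : ℝ) : ℂ) * Complex.I)

/-- For `N ≤ T ≤ N^A` and `|b_n| ≤ 1` there are at most `C N^κ` integers `t ∈ [0, T]` with
`|D(t)| > N^σ`. -/
def LargeValues (A σ κ : ℝ) : Prop :=
  ∃ C : ℝ, ∀ N : ℕ, 1 ≤ N → ∀ T : ℝ, (N : ℝ) ≤ T → T ≤ (N : ℝ) ^ A →
    ∀ b : ℕ → ℂ, (∀ n ∈ Finset.Icc N (2 * N), ‖b n‖ ≤ 1) → ∀ W : Finset ℤ,
      (∀ t ∈ W, 0 ≤ (t : ℝ) ∧ (t : ℝ) ≤ T ∧ (N : ℝ) ^ σ < ‖poly N b t‖) →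
        (W.card : ℝ) ≤ C * (N : ℝ) ^ κ

open Pool.Agent.Q239.LV

lemma LargeValues.mono {A A' σ κ κ' : ℝ} (hA : A' ≤ A) (hκ : κ ≤ κ') (h : LargeValues A σ κ) :
    LargeValues A' σ κ' := by
  obtain ⟨C, hC⟩ := h
  refine ⟨max C 0, fun N hN T hT1 hT2 b hb W hW => ?_⟩
  have hN1 : (1 : ℝ) ≤ N := by exact_mod_cast hN
  refine (hC N hN T hT1 (hT2.trans (Real.rpow_le_rpow_of_exponent_le hN1 hA)) b hb W hW).trans ?_
  calc C * (N : ℝ) ^ κ ≤ max C 0 * (N : ℝ) ^ κ :=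
        mul_le_mul_of_nonneg_right (le_max_left _ _) (by positivity)
    _ ≤ max C 0 * (N : ℝ) ^ κ' :=
        mul_le_mul_of_nonneg_left (Real.rpow_le_rpow_of_exponent_le hN1 hκ) (le_max_right _ _)

/-- powers of `N` are bounded if one power with positive exponent is -/
lemma small_pow {N X y : ℝ} (hN : 1 ≤ N) (hy : 0 < y) (h : N ^ y ≤ X) (p : ℝ) :
    N ^ p ≤ X ^ (|p| / y) := by
  have hN0 : 0 ≤ N := by linarith
  calc N ^ p ≤ N ^ |p| := Real.rpow_le_rpow_of_exponent_le hN (le_abs_self p)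
    _ = (N ^ y) ^ (|p| / y) := by
        rw [← Real.rpow_mul hN0]
        congr 1
        field_simp
    _ ≤ X ^ (|p| / y) := Real.rpow_le_rpow (by positivity) h (by positivity)

theorem propagation (A B σ₀ : ℝ) (hA : 1 ≤ A) (hB : 0 ≤ B) (hAB : 2 * B < A)
    (H : ∀ ε : ℝ, 0 < ε → LargeValues A σ₀ (B + ε)) (σ : ℝ) (hσ : σ₀ ≤ σ) (ε : ℝ) (hε : 0 < ε) :
    LargeValues A σ (B + 2 * (σ₀ - σ) + ε) := by
  rcases hσ.eq_or_lt with rfl | hσ
  · rw [sub_self, mul_zero, add_zero]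
    exact H ε hε
  set η := min ε ((A - 2 * B) / 4) with hη
  have hη0 : 0 < η := lt_min hε (by linarith)
  have hηε : η ≤ ε := min_le_left _ _
  have hη1 : η ≤ (A - 2 * B) / 4 := min_le_right _ _
  obtain ⟨C1, hC1⟩ := H η hη0
  set C0 := max C1 1 with hC0
  have hC01 : 1 ≤ C0 := le_max_right _ _
  set y := A - 2 * B - 2 * η with hy
  have hy0 : 0 < y := by linarith
  set κ := B + 2 * (σ₀ - σ) + ε with hκ
  set X := 16000 * C0 ^ 2 with hX
  have hX1 : 1 ≤ X := by nlinarith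
  refine ⟨2 * 10 ^ 13 * C0 + 2 * X ^ (|A - κ| / y), fun N hN T hT1 hT2 b hb W hW => ?_⟩
  have hN1 : (1 : ℝ) ≤ N := by exact_mod_cast hN
  have hN0 : (0 : ℝ) < N := by linarith
  have hNκ : 0 < (N : ℝ) ^ κ := by positivity
  by_cases hcase : (N : ℝ) ^ y ≤ X
  · -- the trivial bound
    have h1 : (W.card : ℝ) ≤ 2 * (N : ℝ) ^ A := by
      have h2 : W ⊆ Finset.Icc (0 : ℤ) ⌊T⌋ := by
        intro t ht
        have h3 := hW t ht
        rw [Finset.mem_Icc]
        exact ⟨by exact_mod_cast h3.1, Int.le_floor.2 h3.2.1⟩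
      have h3 := Finset.card_le_card h2
      rw [Int.card_Icc, sub_zero] at h3
      have h4 : 0 ≤ ⌊T⌋ := Int.floor_nonneg.2 (by linarith)
      have h5 : (W.card : ℝ) ≤ (((⌊T⌋ + 1).toNat : ℕ) : ℝ) := by exact_mod_cast h3
      have h6 : (((⌊T⌋ + 1).toNat : ℕ) : ℝ) = ((⌊T⌋ + 1 : ℤ) : ℝ) := by
        rw [← Int.cast_natCast, Int.toNat_of_nonneg (by omega)]
      rw [h6] at h5
      push_cast at h5
      have h7 := Int.floor_le T
      linarith
    have h2 : (N : ℝ) ^ A = (N : ℝ) ^ (A - κ) * (N : ℝ) ^ κ := by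
      rw [← Real.rpow_add hN0]; congr 1; ring
    have h3 := small_pow hN1 hy0 hcase (A - κ)
    calc (W.card : ℝ) ≤ 2 * (N : ℝ) ^ A := h1
      _ = 2 * (N : ℝ) ^ (A - κ) * (N : ℝ) ^ κ := by rw [h2]; ring
      _ ≤ 2 * X ^ (|A - κ| / y) * (N : ℝ) ^ κ := by gcongr
      _ ≤ (2 * 10 ^ 13 * C0 + 2 * X ^ (|A - κ| / y)) * (N : ℝ) ^ κ := by
          refine mul_le_mul_of_nonneg_right ?_ hNκ.le
          have : (0 : ℝ) ≤ 2 * 10 ^ 13 * C0 := by positivity
          linarith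
  · push Not at hcase
    have hN2 : (1 : ℝ) < N := by
      rcases hN1.eq_or_lt with h | h
      · exfalso
        rw [← h, Real.one_rpow] at hcase
        linarith
      · exact h
    set M := ⌈C0 * (N : ℝ) ^ (B + η)⌉₊ with hM
    have hNB : (1 : ℝ) ≤ (N : ℝ) ^ (B + η) := Real.one_le_rpow hN1 (by linarith)
    have hCN : 1 ≤ C0 * (N : ℝ) ^ (B + η) := one_le_mul_of_one_le_of_one_le hC01 hNB
    have hM1 : 1 ≤ M := Nat.one_le_iff_ne_zero.2 (by
      rw [hM]; exact (Nat.ceil_pos.2 (by linarith)).ne')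
    have hMlow : C0 * (N : ℝ) ^ (B + η) ≤ M := Nat.le_ceil _
    have hMup : (M : ℝ) ≤ 2 * C0 * (N : ℝ) ^ (B + η) := by
      have := (Nat.ceil_lt_add_one (show 0 ≤ C0 * (N : ℝ) ^ (B + η) by linarith)).le
      linarith
    set T0 := ⌊(N : ℝ) ^ A⌋₊ with hT0
    have hNA : (N : ℝ) ≤ (N : ℝ) ^ A := by
      conv_lhs => rw [← Real.rpow_one (N : ℝ)]
      exact Real.rpow_le_rpow_of_exponent_le hN1 hA
    have hT0low : (N : ℝ) ^ A ≤ 2 * T0 := by
      have h1 := (Nat.lt_floor_add_one ((N : ℝ) ^ A)).le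
      have h2 : (1 : ℝ) ≤ T0 := by
        have : 1 ≤ T0 := Nat.le_floor (by push_cast; linarith)
        exact_mod_cast this
      linarith
    have hT0up : (T0 : ℝ) ≤ (N : ℝ) ^ A := Nat.floor_le (by positivity)
    have hbig : 2000 * M ^ 2 ≤ T0 := by
      have h1 : (2000 : ℝ) * M ^ 2 ≤ T0 := by
        have h2 : (M : ℝ) ^ 2 ≤ (2 * C0 * (N : ℝ) ^ (B + η)) ^ 2 :=
          pow_le_pow_left₀ (by positivity) hMup 2
        have h3 : (2 * C0 * (N : ℝ) ^ (B + η)) ^ 2 = 4 * C0 ^ 2 * (N : ℝ) ^ (2 * B + 2 * η) := by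
          rw [mul_pow, mul_pow, ← Real.rpow_natCast ((N : ℝ) ^ (B + η)) 2, ← Real.rpow_mul hN0.le]
          norm_num
          left
          ring_nf
        have h4 : (N : ℝ) ^ A = (N : ℝ) ^ y * (N : ℝ) ^ (2 * B + 2 * η) := by
          rw [← Real.rpow_add hN0]; congr 1; rw [hy]; ring
        have h5 : X * (N : ℝ) ^ (2 * B + 2 * η) ≤ (N : ℝ) ^ A := by
          rw [h4]; gcongr
        rw [hX] at h5
        nlinarith
      exact_mod_cast h1
    have hprop := propagate (Finset.Icc N (2 * N)) (fun n t => ker (Real.log (n : ℝ)) t)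
      (fun n a b => by rw [Int.cast_add, ker_add])
      (fun n a => by rw [Complex.normSq_eq_norm_sq, norm_ker, one_pow])
      T0 M hM1 hbig ((N : ℝ) ^ σ₀) (by positivity)
      (fun b hb W hW => by
        have h1 := hC1 N hN ((N : ℝ) ^ A) hNA le_rfl b (fun n _ => hb n) W (fun t ht => by
          have h2 := hW t ht
          refine ⟨by exact_mod_cast h2.1, ?_, h2.2.2⟩
          have h3 : (t : ℝ) ≤ T0 := by exact_mod_cast h2.2.1
          exact h3.trans hT0up)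
        have h2 : (W.card : ℝ) ≤ M := by
          refine h1.trans (le_trans ?_ hMlow)
          exact mul_le_mul_of_nonneg_right (le_max_left _ _) (by positivity)
        exact_mod_cast h2)
      (fun n => if n ∈ Finset.Icc N (2 * N) then b n else 0)
      (fun n => by
        split_ifs with hn
        · exact hb n hn
        · simp)
      ((N : ℝ) ^ σ) (Real.rpow_lt_rpow_of_exponent_lt hN2 hσ) W
      (fun t ht => by
        have h2 := hW t ht
        refine ⟨by exact_mod_cast h2.1, ?_, ?_⟩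
        · have h3 : (t : ℝ) ≤ (N : ℝ) ^ A := h2.2.1.trans hT2
          have h4 : 0 ≤ t := by exact_mod_cast h2.1
          have h5 : t.toNat ≤ T0 := Nat.le_floor (by
            have : ((t.toNat : ℕ) : ℝ) = (t : ℝ) := by
              rw [← Int.cast_natCast, Int.toNat_of_nonneg h4]
            rw [this]; exact h3)
          omega
        · refine h2.2.2.le.trans (le_of_eq ?_)
          unfold poly
          congr 1
          refine Finset.sum_congr rfl fun n hn => ?_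
          rw [if_pos hn]
          rfl)
    have h1 : (W.card : ℝ) * ((N : ℝ) ^ σ) ^ 2 ≤
        2 * 10 ^ 13 * C0 * (N : ℝ) ^ (B + η) * ((N : ℝ) ^ σ₀) ^ 2 := by
      refine hprop.trans ?_
      have : (0 : ℝ) ≤ ((N : ℝ) ^ σ₀) ^ 2 := by positivity
      nlinarith
    have h2 : ∀ x : ℝ, ((N : ℝ) ^ x) ^ 2 = (N : ℝ) ^ (2 * x) := by
      intro x
      rw [← Real.rpow_natCast ((N : ℝ) ^ x) 2, ← Real.rpow_mul hN0.le]
      congr 1
      push_cast; ring
    rw [h2, h2] at h1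
    have h3 : (W.card : ℝ) ≤ 2 * 10 ^ 13 * C0 * (N : ℝ) ^ (B + η + 2 * σ₀ - 2 * σ) := by
      have h4 : (N : ℝ) ^ (B + η) * (N : ℝ) ^ (2 * σ₀) =
          (N : ℝ) ^ (B + η + 2 * σ₀ - 2 * σ) * (N : ℝ) ^ (2 * σ) := by
        rw [← Real.rpow_add hN0, ← Real.rpow_add hN0]; congr 1; ring
      have h5 : (0 : ℝ) < (N : ℝ) ^ (2 * σ) := by positivity
      refine le_of_mul_le_mul_right ?_ h5
      calc (W.card : ℝ) * (N : ℝ) ^ (2 * σ) ≤ 2 * 10 ^ 13 * C0 * (N : ℝ) ^ (B + η) * (N : ℝ) ^ (2 * σ₀) := h1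
        _ = 2 * 10 ^ 13 * C0 * ((N : ℝ) ^ (B + η) * (N : ℝ) ^ (2 * σ₀)) := by ring
        _ = _ := by rw [h4]; ring
    calc (W.card : ℝ) ≤ 2 * 10 ^ 13 * C0 * (N : ℝ) ^ (B + η + 2 * σ₀ - 2 * σ) := h3
      _ ≤ 2 * 10 ^ 13 * C0 * (N : ℝ) ^ κ := by
          refine mul_le_mul_of_nonneg_left ?_ (by positivity)
          exact Real.rpow_le_rpow_of_exponent_le hN1 (by rw [hκ]; linarith)
      _ ≤ (2 * 10 ^ 13 * C0 + 2 * X ^ (|A - κ| / y)) * (N : ℝ) ^ κ := by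
          refine mul_le_mul_of_nonneg_right ?_ hNκ.le
          have : (0 : ℝ) ≤ 2 * X ^ (|A - κ| / y) := by positivity
          linarith

/-- (a) A large value estimate with the exponent `B + ε` at the level `σ₀` in the range `T ≤ N^A`,
`A > 2B`, implies the exponent `B - 2(σ - σ₀) + ε` at all levels `σ ≥ σ₀`, in the same range.
(b) For each `A > 2` Montgomery's conjecture in the range `T ≤ N^A` is equivalent to the bound
`C N^(1 + ε)` for the number of the integers `t ∈ [0, T]` with `|D(t)| > N^σ`, for all `σ > 1/2`.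
(c) So Q1 is equivalent to the bound `C N^(1 + ε)`, for all `A`, `σ > 1/2` and `ε > 0`. -/
theorem result :
    (∀ A B σ₀ : ℝ, 1 ≤ A → 0 ≤ B → 2 * B < A → (∀ ε : ℝ, 0 < ε → LargeValues A σ₀ (B + ε)) →
      ∀ σ : ℝ, σ₀ ≤ σ → ∀ ε : ℝ, 0 < ε → LargeValues A σ (B - 2 * (σ - σ₀) + ε)) ∧
    (∀ A : ℝ, 2 < A →
      ((∀ σ : ℝ, 1 / 2 < σ → ∀ ε : ℝ, 0 < ε → LargeValues A σ (2 - 2 * σ + ε)) ↔
        (∀ σ : ℝ, 1 / 2 < σ → ∀ ε : ℝ, 0 < ε → LargeValues A σ (1 + ε)))) ∧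
    ((∀ A : ℝ, 1 ≤ A → ∀ σ : ℝ, 1 / 2 < σ → ∀ ε : ℝ, 0 < ε → LargeValues A σ (2 - 2 * σ + ε)) ↔
      (∀ A : ℝ, 1 ≤ A → ∀ σ : ℝ, 1 / 2 < σ → ∀ ε : ℝ, 0 < ε → LargeValues A σ (1 + ε))) := by
  have hb : ∀ A : ℝ, 2 < A →
      ((∀ σ : ℝ, 1 / 2 < σ → ∀ ε : ℝ, 0 < ε → LargeValues A σ (2 - 2 * σ + ε)) ↔
        (∀ σ : ℝ, 1 / 2 < σ → ∀ ε : ℝ, 0 < ε → LargeValues A σ (1 + ε))) := by
    intro A hA
    constructor
    · intro h σ hσ ε hε
      exact (h σ hσ ε hε).mono le_rfl (by linarith)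
    · intro h σ hσ ε hε
      set δ := min (σ - 1 / 2) (ε / 4) with hδ
      have hδ0 : 0 < δ := lt_min (by linarith) (by linarith)
      have hδ1 : δ ≤ σ - 1 / 2 := min_le_left _ _
      have hδ2 : δ ≤ ε / 4 := min_le_right _ _
      have h1 := propagation A 1 (1 / 2 + δ) (by linarith) zero_le_one (by linarith)
        (fun ε' hε' => h (1 / 2 + δ) (by linarith) ε' hε') σ (by linarith) (ε / 2) (by linarith)
      exact h1.mono le_rfl (by linarith)
  refine ⟨?_, hb, ?_⟩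
  · intro A B σ₀ hA hB hAB H σ hσ ε hε
    have h1 := propagation A B σ₀ hA hB hAB H σ hσ ε hε
    exact h1.mono le_rfl (by linarith)
  · constructor
    · intro h A hA σ hσ ε hε
      exact (h A hA σ hσ ε hε).mono le_rfl (by linarith)
    · intro h A hA σ hσ ε hε
      have h1 := (hb (max A 3) (lt_of_lt_of_le (by norm_num) (le_max_right _ _))).2
        (fun σ hσ ε hε => h (max A 3) (hA.trans (le_max_left _ _)) σ hσ ε hε) σ hσ ε hε
      exact h1.mono (le_max_left _ _) le_rfl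

end Pool.Agent.Results.MP_ecd12e_nt.BoundNSuffices
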