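import Pool.Agent.Q239.LV.Lev

/-!
# Montgomery's large value conjecture is a statement on pairs of sets of integers

For every `A ≥ 2` the following are equivalent:

* Montgomery's large value conjecture for `N ≤ T ≤ N^A`;
* `|∑_{n ∈ 𝒜} ∑_{t ∈ W} n^{it}| ≤ C N^(3/2 + ε)` for all sets `𝒜 ⊂ [N, 2N]` and `W ⊂ [0, N^A]` of
  integers, `|W| ≤ N`;
* `∑_{N ≤ n ≤ 2N} |∑_{t ∈ W} n^{it}| ≤ C N^(1 + ε) |W|^(1/2)` for all such `W`.
-/

set_option autoImplicit false

open Finset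

namespace Pool.Agent.Results.MP_ecd12e_nt.PairsOfSets

/-- `n^{it}` -/
noncomputable def power (n : ℕ) (t : ℤ) : ℂ :=
  Complex.exp ((((t : ℝ) * Real.log (n : ℝ) : ℝ) : ℂ) * Complex.I)

/-- the statement of Q1 for the range `N ≤ T ≤ N^A` -/
def Montgomery (A : ℝ) : Prop :=
  ∀ σ : ℝ, 1 / 2 < σ → ∀ ε : ℝ, 0 < ε → ∃ C : ℝ,
    ∀ N : ℕ, 1 ≤ N → ∀ T : ℝ, (N : ℝ) ≤ T → T ≤ (N : ℝ) ^ A →
      ∀ b : ℕ → ℂ, (∀ n ∈ Finset.Icc N (2 * N), ‖b n‖ ≤ 1) → ∀ W : Finset ℤ,
        (∀ t ∈ W, 0 ≤ (t : ℝ) ∧ (t : ℝ) ≤ T ∧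
          (N : ℝ) ^ σ < ‖∑ n ∈ Finset.Icc N (2 * N), b n * power n t‖) →
          (W.card : ℝ) ≤ C * (N : ℝ) ^ (2 - 2 * σ + ε)

/-- the double sums of `n^{it}` over all pairs of sets of integers `𝒜 ⊂ [N, 2N]` and
`W ⊂ [0, N^A]`, `|W| ≤ N`, are at most `C N^(3/2 + ε)` -/
def Pairs (A : ℝ) : Prop :=
  ∀ ε : ℝ, 0 < ε → ∃ C : ℝ, ∀ N : ℕ, 1 ≤ N → ∀ (S : Finset ℕ) (W : Finset ℤ),
    (∀ n ∈ S, N ≤ n ∧ n ≤ 2 * N) → (∀ t ∈ W, 0 ≤ (t : ℝ) ∧ (t : ℝ) ≤ (N : ℝ) ^ A) → W.card ≤ N →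
      ‖∑ n ∈ S, ∑ t ∈ W, power n t‖ ≤ C * (N : ℝ) ^ (3 / 2 + ε)

/-- the sum over `N ≤ n ≤ 2N` of the absolute values of the sums of `n^{it}` over sets
`W ⊂ [0, N^A]` of at most `N` integers is at most `C N^(1 + ε) |W|^(1/2)` -/
def Means (A : ℝ) : Prop :=
  ∀ ε : ℝ, 0 < ε → ∃ C : ℝ, ∀ N : ℕ, 1 ≤ N → ∀ W : Finset ℤ,
    (∀ t ∈ W, 0 ≤ (t : ℝ) ∧ (t : ℝ) ≤ (N : ℝ) ^ A) → W.card ≤ N →
      ∑ n ∈ Finset.Icc N (2 * N), ‖∑ t ∈ W, power n t‖ ≤ C * (N : ℝ) ^ (1 + ε) * Real.sqrt W.card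

open Pool.Agent.Q239.LV

lemma norm_power (n : ℕ) (t : ℤ) : ‖power n t‖ = 1 := norm_ker _ _

lemma normSq_power (n : ℕ) (t : ℤ) : Complex.normSq (power n t) = 1 := by
  rw [Complex.normSq_eq_norm_sq, norm_power, one_pow]

lemma power_add (n : ℕ) (a b : ℤ) : power n (a + b) = power n a * power n b := by
  have := ker_add (Real.log (n : ℝ)) (a : ℝ) (b : ℝ)
  unfold power
  unfold ker at this
  rw [Int.cast_add]
  exact this

/-- a number is bounded by the thresholds of a grid which it exceeds -/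
lemma grid (x : ℝ) (g : ℕ → ℝ) (hg : ∀ i, 0 ≤ g i) (K : ℕ) :
    x ≤ g 0 + ∑ i ∈ range K, (if g i < x then g (i + 1) else 0) + (if g K < x then x else 0) := by
  induction K with
  | zero =>
    rw [range_zero, sum_empty, add_zero]
    split_ifs with h
    · linarith [hg 0]
    · push Not at h; linarith
  | succ K ih =>
    rw [sum_range_succ]
    have h2 := hg (K + 1)
    have h3 : (if g K < x then x else 0) ≤
        (if g K < x then g (K + 1) else 0) + (if g (K + 1) < x then x else 0) := by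
      split_ifs with h h' h'
      · linarith
      · push Not at h'; linarith
      · have : (0 : ℝ) ≤ x := by linarith
        linarith
      · simp
    linarith

lemma means_of_montgomery {A : ℝ} (hA : 2 ≤ A) (H : Montgomery A) : Means A := by
  intro ε hε
  set δ := ε / 2 with hδ
  have hδ0 : 0 < δ := by positivity
  -- the grid `σ_i = 1/2 + (i+1) δ`
  set sg : ℕ → ℝ := fun i => 1 / 2 + (i + 1) * δ with hsg
  have hsg' : ∀ i, 1 / 2 < sg i := by
    intro i
    rw [hsg]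
    have : 0 < ((i : ℝ) + 1) * δ := by positivity
    linarith
  have hex : ∀ i, ∃ C : ℝ, 0 ≤ C ∧ ∀ N : ℕ, 1 ≤ N → ∀ T : ℝ, (N : ℝ) ≤ T → T ≤ (N : ℝ) ^ A →
      ∀ b : ℕ → ℂ, (∀ n ∈ Finset.Icc N (2 * N), ‖b n‖ ≤ 1) → ∀ W : Finset ℤ,
        (∀ t ∈ W, 0 ≤ (t : ℝ) ∧ (t : ℝ) ≤ T ∧
          (N : ℝ) ^ (sg i) < ‖∑ n ∈ Finset.Icc N (2 * N), b n * power n t‖) →
          (W.card : ℝ) ≤ C * (N : ℝ) ^ (2 - 2 * sg i + ε) := by
    intro i
    obtain ⟨C, hC⟩ := H (sg i) (hsg' i) ε hε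
    refine ⟨max C 0, le_max_right _ _, fun N hN T hT1 hT2 b hb W hW => ?_⟩
    exact (hC N hN T hT1 hT2 b hb W hW).trans
      (mul_le_mul_of_nonneg_right (le_max_left _ _) (by positivity))
  choose C hC0 hC using hex
  obtain ⟨K, hK⟩ := exists_nat_gt (1 / δ)
  have hsK : 1 ≤ sg K := by
    rw [hsg]
    rw [div_lt_iff₀ hδ0] at hK
    dsimp only
    nlinarith
  refine ⟨1 + ∑ i ∈ range K, Real.sqrt (C i) + 2 * Real.sqrt (C K), fun N hN W hW hc => ?_⟩
  have hN1 : (1 : ℝ) ≤ N := by exact_mod_cast hN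
  have hN0 : (0 : ℝ) < N := by linarith
  have hNA : (N : ℝ) ≤ (N : ℝ) ^ A := by
    conv_lhs => rw [← Real.rpow_one (N : ℝ)]
    exact Real.rpow_le_rpow_of_exponent_le hN1 (by linarith)
  -- the count of the large values
  have hcount : ∀ i, ∀ b : ℕ → ℂ, (∀ n ∈ Finset.Icc N (2 * N), ‖b n‖ ≤ 1) →
      ((W.filter fun t => (N : ℝ) ^ (sg i) < ‖∑ n ∈ Finset.Icc N (2 * N), b n * power n t‖).card : ℝ) ≤
        Real.sqrt W.card * (Real.sqrt (C i) * (N : ℝ) ^ (1 - sg i + δ)) := by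
    intro i b hb
    set W' := W.filter fun t => (N : ℝ) ^ (sg i) < ‖∑ n ∈ Finset.Icc N (2 * N), b n * power n t‖
      with hW'
    have h1 := hC i N hN ((N : ℝ) ^ A) hNA le_rfl b hb W' (by
      intro t ht
      rw [hW', Finset.mem_filter] at ht
      exact ⟨(hW t ht.1).1, (hW t ht.1).2, ht.2⟩)
    have h2 : (W'.card : ℝ) ≤ W.card := by
      exact_mod_cast Finset.card_le_card (Finset.filter_subset _ _)
    have h3 : (W'.card : ℝ) = Real.sqrt W'.card * Real.sqrt W'.card :=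
      (Real.mul_self_sqrt (Nat.cast_nonneg _)).symm
    have h4 : Real.sqrt W'.card ≤ Real.sqrt (C i) * (N : ℝ) ^ (1 - sg i + δ) := by
      refine (Real.sqrt_le_sqrt h1).trans (le_of_eq ?_)
      rw [Real.sqrt_mul (hC0 i), Real.sqrt_eq_rpow ((N : ℝ) ^ _), ← Real.rpow_mul hN0.le]
      congr 2
      rw [hδ]
      ring
    rw [h3]
    exact mul_le_mul (Real.sqrt_le_sqrt h2) h4 (Real.sqrt_nonneg _) (Real.sqrt_nonneg _)
  have hsR : Real.sqrt W.card ≤ Real.sqrt N := Real.sqrt_le_sqrt (by exact_mod_cast hc)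
  have hD : ∀ b : ℕ → ℂ, (∀ n, ‖b n‖ ≤ 1) →
      ∑ t ∈ W, ‖∑ n ∈ Finset.Icc N (2 * N), b n * power n t‖ ≤
        (1 + ∑ i ∈ range K, Real.sqrt (C i) + 2 * Real.sqrt (C K)) * (N : ℝ) ^ (1 + ε) *
          Real.sqrt W.card := by
    intro b hb
    set x : ℤ → ℝ := fun t => ‖∑ n ∈ Finset.Icc N (2 * N), b n * power n t‖ with hx
    set g : ℕ → ℝ := fun i => (N : ℝ) ^ (sg i) with hg
    have hx2 : ∀ t, x t ≤ 2 * N := by
      intro t
      rw [hx]
      refine (norm_sum_le _ _).trans ?_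
      calc ∑ n ∈ Finset.Icc N (2 * N), ‖b n * power n t‖ ≤ ∑ _n ∈ Finset.Icc N (2 * N), (1 : ℝ) := by
            refine Finset.sum_le_sum fun n _ => ?_
            rw [norm_mul, norm_power, mul_one]
            exact hb n
        _ = ((2 * N + 1 - N : ℕ) : ℝ) := by rw [Finset.sum_const, Nat.card_Icc]; simp
        _ ≤ 2 * N := by
            have : 2 * N + 1 - N ≤ 2 * N := by omega
            exact_mod_cast this
    have h1 : ∑ t ∈ W, x t ≤ ∑ t ∈ W, (g 0 + ∑ i ∈ range K, (if g i < x t then g (i + 1) else 0) +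
        (if g K < x t then x t else 0)) :=
      Finset.sum_le_sum fun t _ => grid (x t) g (fun i => by rw [hg]; positivity) K
    have hlev : ∀ i, ((W.filter fun t => g i < x t).card : ℝ) ≤
        Real.sqrt W.card * (Real.sqrt (C i) * (N : ℝ) ^ (1 - sg i + δ)) := fun i =>
      hcount i b (fun n _ => hb n)
    have h2 : ∀ i, ∑ t ∈ W, (if g i < x t then g (i + 1) else 0) ≤
        Real.sqrt (C i) * ((N : ℝ) ^ (1 + ε) * Real.sqrt W.card) := by
      intro i
      rw [← Finset.sum_filter, Finset.sum_const, nsmul_eq_mul]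
      calc ((W.filter fun t => g i < x t).card : ℝ) * g (i + 1) ≤
            Real.sqrt W.card * (Real.sqrt (C i) * (N : ℝ) ^ (1 - sg i + δ)) * g (i + 1) :=
            mul_le_mul_of_nonneg_right (hlev i) (by rw [hg]; positivity)
        _ = Real.sqrt (C i) * (((N : ℝ) ^ (1 - sg i + δ) * (N : ℝ) ^ (sg (i + 1))) *
            Real.sqrt W.card) := by rw [hg]; ring
        _ = Real.sqrt (C i) * ((N : ℝ) ^ (1 + ε) * Real.sqrt W.card) := by
            rw [← Real.rpow_add hN0]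
            congr 3
            rw [hsg, hδ]
            push_cast
            ring
    have h3 : ∑ t ∈ W, (if g K < x t then x t else 0) ≤
        2 * Real.sqrt (C K) * ((N : ℝ) ^ (1 + ε) * Real.sqrt W.card) := by
      rw [← Finset.sum_filter]
      calc ∑ t ∈ W.filter (fun t => g K < x t), x t ≤ ∑ _t ∈ W.filter (fun t => g K < x t), (2 * N : ℝ) :=
            Finset.sum_le_sum fun t _ => hx2 t
        _ = ((W.filter fun t => g K < x t).card : ℝ) * (2 * N) := by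
            rw [Finset.sum_const, nsmul_eq_mul]
        _ ≤ Real.sqrt W.card * (Real.sqrt (C K) * (N : ℝ) ^ (1 - sg K + δ)) * (2 * N) :=
            mul_le_mul_of_nonneg_right (hlev K) (by positivity)
        _ = 2 * Real.sqrt (C K) * (((N : ℝ) ^ (1 - sg K + δ) * (N : ℝ) ^ (1 : ℝ)) *
            Real.sqrt W.card) := by rw [Real.rpow_one]; ring
        _ ≤ 2 * Real.sqrt (C K) * ((N : ℝ) ^ (1 + ε) * Real.sqrt W.card) := by
            rw [← Real.rpow_add hN0]
            refine mul_le_mul_of_nonneg_left (mul_le_mul_of_nonneg_right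
              (Real.rpow_le_rpow_of_exponent_le hN1 ?_) (Real.sqrt_nonneg _)) (by positivity)
            rw [hδ]
            linarith
    have h4 : ∑ _t ∈ W, g 0 ≤ (N : ℝ) ^ (1 + ε) * Real.sqrt W.card := by
      rw [Finset.sum_const, nsmul_eq_mul]
      calc (W.card : ℝ) * g 0 = Real.sqrt W.card * (Real.sqrt W.card * g 0) := by
            rw [← mul_assoc, Real.mul_self_sqrt (Nat.cast_nonneg _)]
        _ ≤ Real.sqrt W.card * (Real.sqrt N * g 0) := by
            refine mul_le_mul_of_nonneg_left (mul_le_mul_of_nonneg_right hsR ?_) (Real.sqrt_nonneg _)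
            rw [hg]; positivity
        _ = (N : ℝ) ^ (1 + δ) * Real.sqrt W.card := by
            rw [hg, Real.sqrt_eq_rpow (N : ℝ)]
            dsimp only
            rw [← Real.rpow_add hN0, mul_comm]
            congr 2
            rw [hsg]
            push_cast
            ring
        _ ≤ (N : ℝ) ^ (1 + ε) * Real.sqrt W.card := by
            refine mul_le_mul_of_nonneg_right (Real.rpow_le_rpow_of_exponent_le hN1 ?_)
              (Real.sqrt_nonneg _)
            rw [hδ]; linarith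
    rw [Finset.sum_add_distrib, Finset.sum_add_distrib, Finset.sum_comm] at h1
    have h5 : ∑ i ∈ range K, ∑ t ∈ W, (if g i < x t then g (i + 1) else 0) ≤
        ∑ i ∈ range K, Real.sqrt (C i) * ((N : ℝ) ^ (1 + ε) * Real.sqrt W.card) :=
      Finset.sum_le_sum fun i _ => h2 i
    rw [← Finset.sum_mul] at h5
    calc _ ≤ _ := h1
      _ ≤ (N : ℝ) ^ (1 + ε) * Real.sqrt W.card +
          (∑ i ∈ range K, Real.sqrt (C i)) * ((N : ℝ) ^ (1 + ε) * Real.sqrt W.card) +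
          2 * Real.sqrt (C K) * ((N : ℝ) ^ (1 + ε) * Real.sqrt W.card) :=
          add_le_add (add_le_add h4 h5) h3
      _ = _ := by ring
  -- duality
  refine sum_norm_poly_le W (Finset.Icc N (2 * N)) (fun t n => power n t) _ fun u hu => ?_
  have h1 := hD u hu
  refine le_trans ?_ h1
  calc _ = ‖∑ t ∈ W, ∑ n ∈ Finset.Icc N (2 * N), u n * power n t‖ := by
        congr 1
        simp_rw [Finset.mul_sum]
        rw [Finset.sum_comm]
    _ ≤ _ := norm_sum_le _ _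

lemma pairs_of_means {A : ℝ} (H : Means A) : Pairs A := by
  intro ε hε
  obtain ⟨C, h⟩ := H ε hε
  refine ⟨max C 0, fun N hN S W hS hW hc => ?_⟩
  have hN0 : (0 : ℝ) < N := by exact_mod_cast hN
  calc ‖∑ n ∈ S, ∑ t ∈ W, power n t‖ ≤ ∑ n ∈ S, ‖∑ t ∈ W, power n t‖ := norm_sum_le _ _
    _ ≤ ∑ n ∈ Finset.Icc N (2 * N), ‖∑ t ∈ W, power n t‖ :=
        Finset.sum_le_sum_of_subset_of_nonneg (fun n hn => Finset.mem_Icc.2 (hS n hn))
          (fun _ _ _ => norm_nonneg _)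
    _ ≤ C * (N : ℝ) ^ (1 + ε) * Real.sqrt W.card := h N hN W hW hc
    _ ≤ max C 0 * (N : ℝ) ^ (1 + ε) * Real.sqrt W.card := by
        refine mul_le_mul_of_nonneg_right (mul_le_mul_of_nonneg_right (le_max_left _ _)
          (by positivity)) (Real.sqrt_nonneg _)
    _ ≤ max C 0 * (N : ℝ) ^ (1 + ε) * Real.sqrt N := by
        have : (0 : ℝ) ≤ max C 0 := le_max_right _ _
        refine mul_le_mul_of_nonneg_left (Real.sqrt_le_sqrt ?_) (by positivity)
        exact_mod_cast hc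
    _ = max C 0 * (N : ℝ) ^ (3 / 2 + ε) := by
        rw [Real.sqrt_eq_rpow, mul_assoc, ← Real.rpow_add hN0]
        congr 2
        ring

lemma small_pow {N X y : ℝ} (hN : 1 ≤ N) (hy : 0 < y) (h : N ^ y ≤ X) (p : ℝ) :
    N ^ p ≤ X ^ (|p| / y) := by
  have hN0 : 0 ≤ N := by linarith
  calc N ^ p ≤ N ^ |p| := Real.rpow_le_rpow_of_exponent_le hN (le_abs_self p)
    _ = (N ^ y) ^ (|p| / y) := by
        rw [← Real.rpow_mul hN0]
        congr 1
        field_simp
    _ ≤ X ^ (|p| / y) := Real.rpow_le_rpow (by positivity) h (by positivity)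

lemma montgomery_of_pairs {A : ℝ} (hA : 2 ≤ A) (H : Pairs A) : Montgomery A := by
  intro σ hσ ε hε
  set η := min (ε / 2) ((σ - 1 / 2) / 2) with hη
  have hη0 : 0 < η := lt_min (by linarith) (by linarith)
  have hη1 : η ≤ ε / 2 := min_le_left _ _
  have hη2 : η ≤ (σ - 1 / 2) / 2 := min_le_right _ _
  obtain ⟨C1, hC1⟩ := H η hη0
  set C0 := max C1 1 with hC0
  have hC01 : 1 ≤ C0 := le_max_right _ _
  set y := 2 * σ - 1 - 2 * η with hy
  have hy0 : 0 < y := by linarith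
  set κ := 2 - 2 * σ + ε with hκ
  set X := 1344 ^ 2 * C0 ^ 2 with hX
  refine ⟨X + 2 * X ^ (|A - κ| / y), fun N hN T hT1 hT2 b hb W hW => ?_⟩
  have hN1 : (1 : ℝ) ≤ N := by exact_mod_cast hN
  have hN0 : (0 : ℝ) < N := by linarith
  have hNκ : 0 < (N : ℝ) ^ κ := by positivity
  set β := C0 * (N : ℝ) ^ (3 / 2 + η) with hβ
  have hβ0 : 0 ≤ β := by positivity
  set T0 := ⌊(N : ℝ) ^ A⌋₊ with hT0
  have hT0up : (T0 : ℝ) ≤ (N : ℝ) ^ A := Nat.floor_le (by positivity)
  have hT0N : N ^ 2 ≤ T0 := Nat.le_floor (by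
    push_cast
    rw [← Real.rpow_natCast (N : ℝ) 2]
    exact Real.rpow_le_rpow_of_exponent_le hN1 (by push_cast; exact hA))
  have hpair : ∀ S ⊆ Finset.Icc N (2 * N), ∀ W : Finset ℤ, (∀ t ∈ W, 0 ≤ t ∧ t ≤ T0) →
      W.card ≤ N → ‖∑ n ∈ S, ∑ t ∈ W, power n t‖ ≤ β := by
    intro S hS W hW hc
    refine (hC1 N hN S W (fun n hn => Finset.mem_Icc.1 (hS hn)) (fun t ht => ?_) hc).trans
      (mul_le_mul_of_nonneg_right (le_max_left _ _) (by positivity))
    have h1 := hW t ht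
    refine ⟨by exact_mod_cast h1.1, ?_⟩
    have h2 : (t : ℝ) ≤ T0 := by exact_mod_cast h1.2
    exact h2.trans hT0up
  -- subsets with at most `N` elements
  have hmain : ∀ W' ⊆ W, W'.card ≤ N → (W'.card : ℝ) ≤ X * (N : ℝ) ^ (2 - 2 * σ + 2 * η) := by
    intro W' hW' hc
    have h1 := bil_bound (Finset.Icc N (2 * N)) power power_add normSq_power N T0 hN hT0N β hpair
      W' (fun t => t) (fun _ _ _ _ h => h) (by
        intro t ht
        have h2 := hW t (hW' ht)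
        have h3 : (t : ℝ) ≤ (N : ℝ) ^ A := h2.2.1.trans hT2
        have h4 : 0 ≤ t := by exact_mod_cast h2.1
        have h5 : t.toNat ≤ T0 := Nat.le_floor (by
          have : ((t.toNat : ℕ) : ℝ) = (t : ℝ) := by
            rw [← Int.cast_natCast, Int.toNat_of_nonneg h4]
          rw [this]; exact h3)
        exact ⟨h4, by omega⟩) hc
    have h2 : ∑ t ∈ W', ‖∑ n ∈ Finset.Icc N (2 * N), b n * power n t‖ ≤
        1344 * β * Real.sqrt (W'.card / N) := by
      refine sum_norm_poly_le (Finset.Icc N (2 * N)) W' (fun n t => b n * power n t) _ fun u hu => ?_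
      have h3 := h1 u hu
      refine le_trans ?_ h3
      calc ‖∑ t ∈ W', u t * ∑ n ∈ Finset.Icc N (2 * N), b n * power n t‖ =
            ‖∑ n ∈ Finset.Icc N (2 * N), b n * ∑ t ∈ W', u t * power n t‖ := by
            congr 1
            simp_rw [Finset.mul_sum]
            rw [Finset.sum_comm]
            refine Finset.sum_congr rfl fun n _ => Finset.sum_congr rfl fun t _ => ?_
            ring
        _ ≤ ∑ n ∈ Finset.Icc N (2 * N), ‖∑ t ∈ W', u t * power n t‖ := by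
            refine (norm_sum_le _ _).trans (Finset.sum_le_sum fun n hn => ?_)
            rw [norm_mul]
            exact mul_le_of_le_one_left (norm_nonneg _) (hb n hn)
    have h3 : (W'.card : ℝ) * (N : ℝ) ^ σ ≤ ∑ t ∈ W', ‖∑ n ∈ Finset.Icc N (2 * N), b n * power n t‖ := by
      have := Finset.card_nsmul_le_sum W'
        (fun t => ‖∑ n ∈ Finset.Icc N (2 * N), b n * power n t‖) ((N : ℝ) ^ σ)
        (fun t ht => (hW t (hW' ht)).2.2.le)
      simpa using this
    by_cases h0 : W'.card = 0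
    · rw [h0]
      simp only [Nat.cast_zero]
      positivity
    have hR : (0 : ℝ) < W'.card := by
      have : 0 < W'.card := by omega
      exact_mod_cast this
    have h4 : ((W'.card : ℝ) * (N : ℝ) ^ σ) ^ 2 ≤ (1344 * β * Real.sqrt (W'.card / N)) ^ 2 :=
      pow_le_pow_left₀ (by positivity) (h3.trans h2) 2
    rw [mul_pow, mul_pow (1344 * β), Real.sq_sqrt (by positivity)] at h4
    have h5 : (W'.card : ℝ) * ((W'.card : ℝ) * ((N : ℝ) ^ σ) ^ 2) ≤
        W'.card * (X * ((N : ℝ) ^ (3 / 2 + η)) ^ 2 / N) := by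
      calc _ = (W'.card : ℝ) ^ 2 * ((N : ℝ) ^ σ) ^ 2 := by ring
        _ ≤ _ := h4
        _ = _ := by rw [hX, hβ]; ring
    have h6 := le_of_mul_le_mul_left h5 hR
    have h7 : ∀ x : ℝ, ((N : ℝ) ^ x) ^ 2 = (N : ℝ) ^ (2 * x) := by
      intro x
      rw [← Real.rpow_natCast ((N : ℝ) ^ x) 2, ← Real.rpow_mul hN0.le]
      congr 1
      push_cast; ring
    rw [h7, h7] at h6
    have h8 : X * (N : ℝ) ^ (2 * (3 / 2 + η)) / N =
        X * (N : ℝ) ^ (2 - 2 * σ + 2 * η) * (N : ℝ) ^ (2 * σ) := by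
      rw [show 2 * (3 / 2 + η) = (2 - 2 * σ + 2 * η) + 2 * σ + 1 by ring, Real.rpow_add hN0,
        Real.rpow_add hN0, Real.rpow_one]
      field_simp
    rw [h8] at h6
    exact le_of_mul_le_mul_right h6 (by positivity)
  by_cases hcase : W.card ≤ N
  · refine (hmain W subset_rfl hcase).trans ?_
    calc X * (N : ℝ) ^ (2 - 2 * σ + 2 * η) ≤ X * (N : ℝ) ^ κ := by
          refine mul_le_mul_of_nonneg_left (Real.rpow_le_rpow_of_exponent_le hN1 ?_) (by positivity)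
          rw [hκ]; linarith
      _ ≤ (X + 2 * X ^ (|A - κ| / y)) * (N : ℝ) ^ κ := by
          refine mul_le_mul_of_nonneg_right ?_ hNκ.le
          have : (0 : ℝ) ≤ 2 * X ^ (|A - κ| / y) := by positivity
          linarith
  · push Not at hcase
    obtain ⟨W', hW', hc'⟩ := Finset.exists_subset_card_eq hcase.le
    have h1 := hmain W' hW' hc'.le
    rw [hc'] at h1
    have h2 : (N : ℝ) ^ y ≤ X := by
      have h3 : (N : ℝ) = (N : ℝ) ^ y * (N : ℝ) ^ (2 - 2 * σ + 2 * η) := by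
        rw [← Real.rpow_add hN0]
        conv_lhs => rw [← Real.rpow_one (N : ℝ)]
        congr 1
        rw [hy]; ring
      have h4 : (N : ℝ) ^ y * (N : ℝ) ^ (2 - 2 * σ + 2 * η) ≤ X * (N : ℝ) ^ (2 - 2 * σ + 2 * η) := by
        rw [← h3]; exact h1
      exact le_of_mul_le_mul_right h4 (by positivity)
    have h3 : (W.card : ℝ) ≤ 2 * (N : ℝ) ^ A := by
      have h2 : W ⊆ Finset.Icc (0 : ℤ) ⌊T⌋ := by
        intro t ht
        have h3 := hW t ht
        rw [Finset.mem_Icc]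
        exact ⟨by exact_mod_cast h3.1, Int.le_floor.2 h3.2.1⟩
      have h3 := Finset.card_le_card h2
      rw [Int.card_Icc, sub_zero] at h3
      have h4 : 0 ≤ ⌊T⌋ := Int.floor_nonneg.2 (by linarith)
      have h5 : (W.card : ℝ) ≤ (((⌊T⌋ + 1).toNat : ℕ) : ℝ) := by exact_mod_cast h3
      have h6 : (((⌊T⌋ + 1).toNat : ℕ) : ℝ) = ((⌊T⌋ + 1 : ℤ) : ℝ) := by
        rw [← Int.cast_natCast, Int.toNat_of_nonneg (by omega)]
      rw [h6] at h5
      push_cast at h5
      have h7 := Int.floor_le T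
      linarith
    have h4 : (N : ℝ) ^ A = (N : ℝ) ^ (A - κ) * (N : ℝ) ^ κ := by
      rw [← Real.rpow_add hN0]; congr 1; ring
    have h5 := small_pow hN1 hy0 h2 (A - κ)
    calc (W.card : ℝ) ≤ 2 * (N : ℝ) ^ A := h3
      _ = 2 * (N : ℝ) ^ (A - κ) * (N : ℝ) ^ κ := by rw [h4]; ring
      _ ≤ 2 * X ^ (|A - κ| / y) * (N : ℝ) ^ κ := by gcongr
      _ ≤ (X + 2 * X ^ (|A - κ| / y)) * (N : ℝ) ^ κ := by
          refine mul_le_mul_of_nonneg_right ?_ hNκ.le
          have : (0 : ℝ) ≤ X := by positivity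
          linarith

/-- For every `A ≥ 2` Montgomery's conjecture for `N ≤ T ≤ N^A` is equivalent to the bound
`C N^(3/2 + ε)` for the double sums of `n^{it}` over pairs of sets of integers in `[N, 2N]` and
`[0, N^A]`, the second with at most `N` elements, and to the bound `C N^(1 + ε) |W|^(1/2)` for the
`ℓ¹` norms. So Q1 is equivalent to `Pairs A` for all `A ≥ 2`. -/
theorem result :
    (∀ A : ℝ, 2 ≤ A → (Montgomery A ↔ Pairs A) ∧ (Montgomery A ↔ Means A)) ∧
    ((∀ A : ℝ, 1 ≤ A → Montgomery A) ↔ ∀ A : ℝ, 2 ≤ A → Pairs A) := by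
  have h : ∀ A : ℝ, 2 ≤ A → (Montgomery A ↔ Pairs A) ∧ (Montgomery A ↔ Means A) := fun A hA =>
    ⟨⟨fun H => pairs_of_means (means_of_montgomery hA H), montgomery_of_pairs hA⟩,
      ⟨means_of_montgomery hA, fun H => montgomery_of_pairs hA (pairs_of_means H)⟩⟩
  refine ⟨h, fun H A hA => (h A hA).1.1 (H A (by linarith)), fun H A _ => ?_⟩
  intro σ hσ ε hε
  obtain ⟨C, hC⟩ := (h (max A 2) (le_max_right _ _)).1.2 (H _ (le_max_right _ _)) σ hσ ε hε
  refine ⟨C, fun N hN T hT1 hT2 => hC N hN T hT1 (hT2.trans ?_)⟩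
  have hN1 : (1 : ℝ) ≤ N := by exact_mod_cast hN
  exact Real.rpow_le_rpow_of_exponent_le hN1 (le_max_left _ _)

end Pool.Agent.Results.MP_ecd12e_nt.PairsOfSets
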