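import Mathlib
import Pool.Agent.Q201.ML.LpN

/-!
# Montgomery's bound fails if `|b_n| ≤ 1` is replaced by `∑ |b_n|^p ≤ N`, for every `p < 4`

Q1 asks for `|W| ≤ C N^(2-2σ+ε)` for the sets `W ⊂ ℤ ∩ [0, N^A]` on which
`D(t) = ∑_{N ≤ n ≤ 2N} b_n n^{it}`, `|b_n| ≤ 1`, has `|D(t)| > N^σ`, `σ > 1/2`.  Bourgain noted that
this is false if only `∑ |b_n|² ≤ N` is assumed.  Here it is shown that it is false if only
`∑ |b_n|^p ≤ N` is assumed, for every `p < 4`, by a fixed power of `N`, for all large `N`, and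
already for the points `t ≤ N^A`, `A > 2p/(p+2)` (for `p = 2`: for every `A > 1`; for `A = 1` the
mean value theorem gives the bound for `p = 2`).

The polynomials are supported on a short interval `[N, N + k]`, `k = N^κ`, `κ < 1/2`, where they are
constant.  They are large at the points `2π N m + l`, `l ≤ N/(8k)`, `m ≤ N/(64 k²)`: at `2π N m` the
linear term of the phase `t log (1 + j/N)` is a multiple of `2π` and the quadratic term is still
small. So the number of the large values is `N² / k³`, much more than the number `N / k` of the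
trivial ones.
-/

set_option autoImplicit false

namespace Pool.Agent.Results.MP_ecd12e_nt.PowerNormalization

open Finset Complex

/-- `D(t) = ∑_{N ≤ n ≤ 2N} b_n n^{it}` -/
noncomputable def D (N : ℕ) (b : ℕ → ℂ) (t : ℝ) : ℂ :=
  ∑ n ∈ Icc N (2 * N), b n * Complex.exp (((t * Real.log n : ℝ) : ℂ) * I)

open Pool.Agent.Q201.ML.LpN in
theorem sum_bb (N k : ℕ) (hk : N + k ≤ 2 * N) (p β : ℝ) (hp : 0 < p) (hβ : 0 ≤ β) :
    ∑ n ∈ Icc N (2 * N), ‖bb N k β n‖ ^ p = (k + 1) * β ^ p := by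
  unfold bb
  have h1 : ∀ n ∈ Icc N (2 * N), ‖(if n ∈ Icc N (N + k) then (β : ℂ) else 0)‖ ^ p =
      if n ∈ Icc N (N + k) then β ^ p else 0 := by
    intro n _
    split_ifs
    · rw [Complex.norm_real, Real.norm_of_nonneg hβ]
    · rw [norm_zero, Real.zero_rpow hp.ne']
  rw [sum_congr rfl h1, ← sum_filter]
  have h2 : (Icc N (2 * N)).filter (fun n => n ∈ Icc N (N + k)) = Icc N (N + k) := by
    ext n
    simp only [mem_filter, mem_Icc]
    omega
  rw [h2, sum_const, Nat.card_Icc, nsmul_eq_mul]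
  congr 1
  have : N + k + 1 - N = k + 1 := by omega
  rw [this]
  push_cast
  ring

open Pool.Agent.Q201.ML.LpN in
theorem result (p A : ℝ) (hp2 : 2 ≤ p) (hp4 : p < 4) (hA : 2 * p / (p + 2) < A) :
    ∃ σ δ : ℝ, 1 / 2 < σ ∧ 0 < δ ∧ ∃ N₀ : ℕ, ∀ N : ℕ, N₀ ≤ N →
      ∃ b : ℕ → ℂ, ∑ n ∈ Icc N (2 * N), ‖b n‖ ^ p ≤ N ∧
        ∃ W : Finset ℤ, (∀ t ∈ W, 0 ≤ t ∧ (t : ℝ) ≤ (N : ℝ) ^ A) ∧
          (∀ t ∈ W, (N : ℝ) ^ σ < ‖D N b t‖) ∧ (N : ℝ) ^ (2 - 2 * σ + δ) ≤ W.card := by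
  -- the exponents
  have hp0 : 0 < p := by linarith
  set a1 : ℝ := (p - 2) / (2 * (p - 1)) with ha1
  set a2 : ℝ := 1 - A / 2 with ha2
  set u : ℝ := 2 / (p + 2) with hu
  have hu0 : 0 < u := by positivity
  have hu2 : u ≤ 1 / 2 := by
    rw [hu, div_le_div_iff₀ (by linarith) (by norm_num)]
    linarith
  have ha1u : a1 < u := by
    rw [ha1, hu, div_lt_div_iff₀ (by linarith) (by linarith)]
    nlinarith
  have ha2u : a2 < u := by
    have : 2 * p / (p + 2) = 2 - 2 * u := by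
      rw [hu]
      field_simp
      ring
    rw [this] at hA
    rw [ha2]
    linarith
  obtain ⟨κ, hκ1, hκu⟩ : ∃ κ, max (max a1 a2) 0 < κ ∧ κ < u :=
    exists_between (max_lt (max_lt ha1u ha2u) hu0)
  have hκ0 : 0 < κ := lt_of_le_of_lt (le_max_right _ _) hκ1
  have hκa1 : a1 < κ := lt_of_le_of_lt ((le_max_left _ _).trans (le_max_left _ _)) hκ1
  have hκa2 : a2 < κ := lt_of_le_of_lt ((le_max_right _ _).trans (le_max_left _ _)) hκ1
  have hκh : κ < 1 / 2 := by linarith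
  set β0 : ℝ := (1 - κ) / p with hβ0
  set σ0 : ℝ := κ + β0 with hσ0
  have hσ0' : 1 / 2 < σ0 := by
    rw [ha1, div_lt_iff₀ (by linarith)] at hκa1
    have : β0 * p = 1 - κ := by rw [hβ0]; field_simp
    have h3 : p * (1 / 2) < p * σ0 := by
      rw [hσ0]
      nlinarith
    exact lt_of_mul_lt_mul_left h3 hp0.le
  set γ : ℝ := 2 * β0 - κ with hγ
  have hγ0 : 0 < γ := by
    rw [hu, lt_div_iff₀ (by linarith)] at hκu
    have : β0 * p = 1 - κ := by rw [hβ0]; field_simp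
    have h3 : p * 0 < p * γ := by
      rw [hγ]
      nlinarith
    exact lt_of_mul_lt_mul_left h3 hp0.le
  set η : ℝ := min (γ / 8) ((σ0 - 1 / 2) / 2) with hη
  have hη0 : 0 < η := lt_min (by positivity) (by linarith)
  have hη1 : η ≤ γ / 8 := min_le_left _ _
  have hη2 : η ≤ (σ0 - 1 / 2) / 2 := min_le_right _ _
  refine ⟨σ0 - η, γ / 4, by linarith, by positivity, ?_⟩
  -- large `N`
  have hev : ∀ s C : ℝ, 0 < s → ∀ᶠ N : ℕ in Filter.atTop, C ≤ (N : ℝ) ^ s := by
    intro s C hs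
    exact ((tendsto_rpow_atTop hs).comp tendsto_natCast_atTop_atTop).eventually_ge_atTop C
  have hA' : 0 < A - (2 - 2 * κ) := by rw [ha2] at hκa2; linarith
  obtain ⟨N₀, hN₀⟩ := Filter.eventually_atTop.1
    ((((hev η 2 hη0).and (hev (1 - 2 * κ) 128 (by linarith))).and
      ((hev (γ / 2) 2048 (by positivity)).and (hev (A - (2 - 2 * κ)) 2 hA'))).and
      (Filter.eventually_ge_atTop 16))
  refine ⟨N₀, fun N hN => ?_⟩
  obtain ⟨⟨⟨h1, h2⟩, h3, h4⟩, h5⟩ := hN₀ N hN
  have hNr : (16 : ℝ) ≤ N := by exact_mod_cast h5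
  have hN0 : (0 : ℝ) < N := by linarith
  have hN1 : (1 : ℝ) ≤ N := by linarith
  have hNpos : 0 < N := by omega
  have hNκ1 : 1 ≤ (N : ℝ) ^ κ := Real.one_le_rpow hN1 hκ0.le
  set x : ℝ := (N : ℝ) ^ κ with hx
  have hx0 : 0 < x := by linarith
  set k : ℕ := ⌊x⌋₊ with hk
  have hk1 : 1 ≤ k := by
    rw [hk, Nat.one_le_floor_iff]
    exact hNκ1
  have hkx : (k : ℝ) ≤ x := Nat.floor_le hx0.le
  have hxk : x < k + 1 := Nat.lt_floor_add_one x
  have hk1r : (1 : ℝ) ≤ k := by exact_mod_cast hk1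
  have hx2 : 128 * x ^ 2 ≤ N := by
    have e1 : (N : ℝ) = (N : ℝ) ^ (1 - 2 * κ) * x ^ 2 := by
      rw [hx, ← Real.rpow_natCast, ← Real.rpow_mul hN0.le, ← Real.rpow_add hN0]
      conv_lhs => rw [← Real.rpow_one (N : ℝ)]
      congr 1
      push_cast
      ring
    calc 128 * x ^ 2 ≤ (N : ℝ) ^ (1 - 2 * κ) * x ^ 2 := by gcongr
      _ = (N : ℝ) := e1.symm
  have hk2 : 128 * (k : ℝ) ^ 2 ≤ N := by
    have : (k : ℝ) ^ 2 ≤ x ^ 2 := by gcongr
    linarith
  have hk3 : 16 * (k : ℝ) ≤ N := by nlinarith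
  have hkN : 8 * k ≤ N := by
    have : 8 * (k : ℝ) ≤ N := by linarith
    exact_mod_cast this
  have hkN' : N + k ≤ 2 * N := by omega
  set L : ℕ := N / (8 * k) with hL
  set M : ℕ := N / (64 * k ^ 2) with hM
  have hL1 : 8 * k * L ≤ N := Nat.mul_div_le _ _
  have hM1 : 64 * k ^ 2 * M ≤ N := Nat.mul_div_le _ _
  have hLr : (N : ℝ) / (16 * k) ≤ L := by
    have e1 : (N : ℝ) / (8 * k : ℕ) < (L : ℝ) + 1 := by
      rw [div_lt_iff₀ (by positivity)]
      have := Nat.lt_mul_div_succ N (show 0 < 8 * k by omega)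
      have e2 : (N : ℝ) < ((8 * k * (N / (8 * k) + 1) : ℕ) : ℝ) := by exact_mod_cast this
      push_cast at e2 ⊢
      nlinarith
    have e3 : (1 : ℝ) ≤ N / (16 * k) := by
      rw [le_div_iff₀ (by positivity)]
      linarith
    have e4 : (N : ℝ) / (8 * k : ℕ) = 2 * (N / (16 * k)) := by
      push_cast
      field_simp
      ring
    linarith
  have hMr : (N : ℝ) / (128 * k ^ 2) ≤ M := by
    have e1 : (N : ℝ) / (64 * k ^ 2 : ℕ) < (M : ℝ) + 1 := by
      rw [div_lt_iff₀ (by positivity)]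
      have := Nat.lt_mul_div_succ N (show 0 < 64 * k ^ 2 by positivity)
      have e2 : (N : ℝ) < ((64 * k ^ 2 * (N / (64 * k ^ 2) + 1) : ℕ) : ℝ) := by exact_mod_cast this
      push_cast at e2 ⊢
      nlinarith
    have e3 : (1 : ℝ) ≤ N / (128 * k ^ 2) := by
      rw [le_div_iff₀ (by positivity)]
      linarith
    have e4 : (N : ℝ) / (64 * k ^ 2 : ℕ) = 2 * (N / (128 * k ^ 2)) := by
      push_cast
      field_simp
      ring
    linarith
  set β : ℝ := ((N : ℝ) / (k + 1)) ^ (1 / p) with hβ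
  have hβnn : 0 ≤ β := by positivity
  refine ⟨bb N k β, ?_, (range M ×ˢ range L).image (pt N), ?_, ?_, ?_⟩
  · -- the norm
    rw [sum_bb N k hkN' p β hp0 hβnn, hβ, ← Real.rpow_mul (by positivity), one_div,
      inv_mul_cancel₀ hp0.ne', Real.rpow_one]
    rw [mul_div_cancel₀]
    positivity
  · -- the points
    intro t ht
    obtain ⟨⟨m, l⟩, hq, rfl⟩ := mem_image.1 ht
    rw [mem_product, mem_range, mem_range] at hq
    have hpi := Real.pi_pos
    have hpi4 := Real.pi_le_four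
    have hm : (m : ℝ) ≤ M := by exact_mod_cast hq.1.le
    have hl : (l : ℝ) ≤ L := by exact_mod_cast hq.2.le
    have hpos : (0 : ℝ) ≤ 2 * Real.pi * N * m := by positivity
    constructor
    · unfold pt
      dsimp only
      have := Int.ceil_nonneg hpos
      omega
    · have e1 : ((pt N (m, l) : ℤ) : ℝ) ≤ 2 * Real.pi * N * M + 1 + L := by
        unfold pt
        push_cast
        have h6 := Int.ceil_lt_add_one (2 * Real.pi * N * (m : ℝ))
        have h7 : 2 * Real.pi * N * (m : ℝ) ≤ 2 * Real.pi * N * M := by gcongr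
        linarith
      have e2 : (M : ℝ) * x ^ 2 ≤ N / 16 := by
        have h6 : 64 * (k : ℝ) ^ 2 * M ≤ N := by exact_mod_cast hM1
        have h7 : x ^ 2 ≤ (2 * (k : ℝ)) ^ 2 := by
          have : x ≤ 2 * k := by linarith
          gcongr
        have h8 : (M : ℝ) * x ^ 2 ≤ M * (2 * k) ^ 2 := by gcongr
        nlinarith
      have e3 : (1 : ℝ) + L ≤ N := by
        have h6 : 8 * (k : ℝ) * L ≤ N := by exact_mod_cast hL1
        have h7 : (0 : ℝ) ≤ L := Nat.cast_nonneg _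
        nlinarith
      have e4 : (2 * Real.pi * N * M + 1 + L) * x ^ 2 ≤ 2 * (N : ℝ) ^ 2 := by
        have h6 : 2 * Real.pi * N * (M * x ^ 2) ≤ 2 * 4 * N * (N / 16) := by gcongr
        have h7 : (1 + (L : ℝ)) * x ^ 2 ≤ N * N := by
          have : x ^ 2 ≤ N := by nlinarith
          gcongr
        nlinarith
      have e5 : (2 : ℝ) * (N : ℝ) ^ 2 ≤ (N : ℝ) ^ A * x ^ 2 := by
        have e6 : (N : ℝ) ^ A * x ^ 2 = (N : ℝ) ^ (A - (2 - 2 * κ)) * (N : ℝ) ^ 2 := by
          rw [hx, ← Real.rpow_natCast ((N : ℝ) ^ κ), ← Real.rpow_mul hN0.le, ← Real.rpow_add hN0,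
            ← Real.rpow_natCast (N : ℝ) 2, ← Real.rpow_add hN0]
          congr 1
          push_cast
          ring
        rw [e6]
        gcongr
      have e7 : (2 * Real.pi * N * M + 1 + L) * x ^ 2 ≤ (N : ℝ) ^ A * x ^ 2 := e4.trans e5
      exact e1.trans (le_of_mul_le_mul_right e7 (by positivity))
  · -- the values
    intro t ht
    obtain ⟨⟨m, l⟩, hq, rfl⟩ := mem_image.1 ht
    rw [mem_product, mem_range, mem_range] at hq
    have h6 := large N k m l L M hNpos hk1 hq.1 hq.2 hL1 hM1 hkN β hβnn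
    refine lt_of_lt_of_le ?_ h6
    have e1 : (N : ℝ) ^ σ0 ≤ β * (k + 1) := by
      have e2 : β * ((k : ℝ) + 1) = (N : ℝ) ^ (1 / p) * ((k : ℝ) + 1) ^ (1 - 1 / p) := by
        rw [hβ, Real.div_rpow hN0.le (by positivity), Real.rpow_sub (by positivity),
          Real.rpow_one]
        ring
      rw [e2]
      have hp1 : 0 ≤ 1 - 1 / p := by
        rw [sub_nonneg, div_le_one hp0]
        linarith
      calc (N : ℝ) ^ σ0 = (N : ℝ) ^ (1 / p) * x ^ (1 - 1 / p) := by
            rw [hx, ← Real.rpow_mul hN0.le, ← Real.rpow_add hN0]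
            congr 1
            rw [hσ0, hβ0]
            field_simp
            ring
        _ ≤ _ := by gcongr
    have e3 : (N : ℝ) ^ (σ0 - η) * 2 ≤ (N : ℝ) ^ σ0 := by
      have : (N : ℝ) ^ σ0 = (N : ℝ) ^ (σ0 - η) * (N : ℝ) ^ η := by
        rw [← Real.rpow_add hN0]
        congr 1
        ring
      rw [this]
      gcongr
    have e4 : 0 < (N : ℝ) ^ (σ0 - η) := by positivity
    linarith
  · -- the number of the points
    rw [card_image_of_injOn (pt_inj N L M hNpos (by nlinarith)), card_product, card_range,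
      card_range]
    push_cast
    have e1 : (N : ℝ) / (128 * k ^ 2) * (N / (16 * k)) ≤ (M : ℝ) * L := by gcongr
    refine le_trans ?_ e1
    have e2 : (N : ℝ) / (128 * k ^ 2) * (N / (16 * k)) = (N : ℝ) ^ 2 / (2048 * (k : ℝ) ^ 3) := by
      field_simp
      ring
    rw [e2, le_div_iff₀ (by positivity)]
    have e3 : (k : ℝ) ^ 3 ≤ x ^ 3 := by gcongr
    calc (N : ℝ) ^ (2 - 2 * (σ0 - η) + γ / 4) * (2048 * (k : ℝ) ^ 3)
        ≤ (N : ℝ) ^ (2 - 2 * (σ0 - η) + γ / 4) * ((N : ℝ) ^ (γ / 2) * x ^ 3) := by gcongr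
      _ = (N : ℝ) ^ (2 - 2 * (σ0 - η) + γ / 4 + (γ / 2 + κ * 3)) := by
          rw [hx, ← Real.rpow_natCast ((N : ℝ) ^ κ), ← Real.rpow_mul hN0.le, ← Real.rpow_add hN0,
            ← Real.rpow_add hN0]
          push_cast
          rfl
      _ ≤ (N : ℝ) ^ (2 : ℝ) := by
          apply Real.rpow_le_rpow_of_exponent_le hN1
          rw [hσ0]
          rw [hγ] at hη1 ⊢
          linarith
      _ = (N : ℝ) ^ 2 := by
          exact_mod_cast Real.rpow_natCast (N : ℝ) 2

end Pool.Agent.Results.MP_ecd12e_nt.PowerNormalization
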